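import Mathlib

open Set Topology Filter

namespace Pool.Agent.H976Z.MCG

/-- image of a subgroup in Baire space -/
def img (G : Subgroup (Equiv.Perm ℕ)) : Set (ℕ → ℕ) :=
  (fun g : Equiv.Perm ℕ => (⇑g : ℕ → ℕ)) '' (G : Set (Equiv.Perm ℕ))

/-- `σ` is approximated by elements of `G` -/
def Appr (G : Subgroup (Equiv.Perm ℕ)) (σ : Equiv.Perm ℕ) : Prop :=
  ∀ s : Finset ℕ, ∃ τ ∈ G, ∀ i ∈ s, τ i = σ i

theorem Appr.inv {G : Subgroup (Equiv.Perm ℕ)} {σ : Equiv.Perm ℕ} (h : Appr G σ) :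
    Appr G σ⁻¹ := by
  intro s
  obtain ⟨τ, hτ, h'⟩ := h (s.image (σ⁻¹ : Equiv.Perm ℕ))
  refine ⟨τ⁻¹, G.inv_mem hτ, fun i hi => ?_⟩
  have := h' _ (Finset.mem_image_of_mem _ hi)
  rw [Equiv.Perm.inv_eq_iff_eq, this]; simp

theorem mem_closure_of_agree {S : Set (ℕ → ℕ)} {u : ℕ → ℕ}
    (h : ∀ s : Finset ℕ, ∃ v ∈ S, ∀ i ∈ s, v i = u i) : u ∈ closure S := by
  rw [mem_closure_iff]
  intro U hU hu
  obtain ⟨I, t, ht, hI⟩ := isOpen_pi_iff.mp hU u hu
  obtain ⟨v, hv, hvu⟩ := h I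
  exact ⟨v, hI fun i hi => by rw [hvu i hi]; exact (ht i hi).2, hv⟩

theorem comp_mem_closure {G : Subgroup (Equiv.Perm ℕ)} {σ : Equiv.Perm ℕ} (h : Appr G σ)
    {u : ℕ → ℕ} (hu : u ∈ closure (img G)) : σ ∘ u ∈ closure (img G) := by
  have hc : Continuous fun u : ℕ → ℕ => σ ∘ u :=
    continuous_pi fun i => (continuous_of_discreteTopology (f := σ)).comp (continuous_apply i)
  have hm : MapsTo (fun u : ℕ → ℕ => σ ∘ u) (img G) (closure (img G)) := by
    rintro _ ⟨g, hg, rfl⟩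
    refine mem_closure_of_agree fun s => ?_
    obtain ⟨τ, hτ, h'⟩ := h (s.image g)
    exact ⟨⇑(τ * g), ⟨τ * g, G.mul_mem hτ hg, rfl⟩, fun i hi =>
      h' _ (Finset.mem_image_of_mem _ hi)⟩
  have := hm.closure hc hu
  rwa [closure_closure] at this

theorem mem_of_isGδ {G : Subgroup (Equiv.Perm ℕ)} (hG : IsGδ (img G)) {σ : Equiv.Perm ℕ}
    (h : Appr G σ) : σ ∈ G := by
  let X := closure (img G)
  haveI : TopologicalSpace.IsCompletelyMetrizableSpace X :=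
    isClosed_closure.isCompletelyMetrizableSpace
  have hc : ∀ τ : Equiv.Perm ℕ, Continuous fun u : ℕ → ℕ => τ ∘ u := fun τ =>
    continuous_pi fun i => (continuous_of_discreteTopology (f := τ)).comp (continuous_apply i)
  let L : X ≃ₜ X :=
    { toFun := fun u => ⟨σ ∘ u.1, comp_mem_closure h u.2⟩
      invFun := fun u => ⟨(σ⁻¹ : Equiv.Perm ℕ) ∘ u.1, comp_mem_closure h.inv u.2⟩
      left_inv := fun u => Subtype.ext (funext fun i => by simp)
      right_inv := fun u => Subtype.ext (funext fun i => by simp)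
      continuous_toFun := ((hc σ).comp continuous_subtype_val).subtype_mk _
      continuous_invFun := ((hc σ⁻¹).comp continuous_subtype_val).subtype_mk _ }
  let A : Set X := Subtype.val ⁻¹' img G
  have hA : IsGδ A := hG.preimage continuous_subtype_val
  have hAd : Dense A := by
    intro x
    rw [closure_subtype, Subtype.image_preimage_coe, inter_eq_right.mpr subset_closure]
    exact x.2
  have hB : IsGδ (L ⁻¹' A) := hA.preimage L.continuous
  have hBd : Dense (L ⁻¹' A) := hAd.preimage L.isOpenMap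
  haveI : Nonempty X := ⟨⟨⇑(1 : Equiv.Perm ℕ), subset_closure ⟨1, G.one_mem, rfl⟩⟩⟩
  obtain ⟨u, ⟨g, hg, hgu⟩, ⟨g', hg', hg'u⟩⟩ := (Dense.inter_of_Gδ hA hB hAd hBd).nonempty
  have : σ = g' * g⁻¹ := by
    rw [eq_mul_inv_iff_mul_eq]
    ext i
    have h1 : g i = u.1 i := congrFun hgu i
    have h2 : g' i = σ (u.1 i) := congrFun hg'u i
    rw [Equiv.Perm.mul_apply, h1, h2]
  rw [this]
  exact G.mul_mem hg' (G.inv_mem hg)

theorem closed_of_isGδ {G : Subgroup (Equiv.Perm ℕ)} (hG : IsGδ (img G)) (σ : Equiv.Perm ℕ)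
    (hσ : σ ∉ G) : ∃ n : ℕ, ∀ τ : Equiv.Perm ℕ, (∀ i < n, τ i = σ i) → τ ∉ G := by
  by_contra hc
  push Not at hc
  refine hσ (mem_of_isGδ hG fun s => ?_)
  obtain ⟨τ, h1, h2⟩ := hc (s.sup id + 1)
  exact ⟨τ, h2, fun i hi => h1 i (Nat.lt_succ_of_le (Finset.le_sup (f := id) hi))⟩

end Pool.Agent.H976Z.MCG
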